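import Mathlib

/-! The monotone Kalai-Kleitman recursion for families of finite sets. -/

set_option autoImplicit false

namespace Pool.MP_0cad2f_co.Qp

open Finset

/-- The recursion of Kalai and Kleitman. -/
def kkH : ℕ → ℕ → ℕ
  | 0, _ => 0
  | _ + 1, 0 => 0
  | f + 1, m + 1 => 2 * kkH (f + 1) ((m + 1) / 2) + kkH f m + 1
termination_by f m => f + m
decreasing_by all_goals omega

theorem kkH_zero_left (m : ℕ) : kkH 0 m = 0 := by
  rw [kkH]

theorem kkH_zero_right (f : ℕ) : kkH f 0 = 0 := by
  cases f <;> rw [kkH]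

theorem kkH_succ (f m : ℕ) :
    kkH (f + 1) (m + 1) = 2 * kkH (f + 1) ((m + 1) / 2) + kkH f m + 1 := by
  rw [kkH]

theorem kkH_bound : ∀ (n f m r : ℕ), f + m = n → m < 2 ^ r →
    kkH f m + 1 ≤ 2 ^ r * (f + r).choose r := by
  intro n
  induction n using Nat.strong_induction_on with
  | _ n ih =>
    intro f m r hn hm
    have hpos : 1 ≤ 2 ^ r * (f + r).choose r := by
      have h1 : 0 < (f + r).choose r := Nat.choose_pos (by omega)
      have h2 : 0 < 2 ^ r := by positivity
      exact Nat.one_le_iff_ne_zero.2 (by positivity)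
    rcases f with _ | f
    · rw [kkH_zero_left]
      simpa using hpos
    rcases m with _ | m
    · rw [kkH_zero_right]
      simpa using hpos
    rcases r with _ | r
    · simp at hm
    have h1 := ih (f + 1 + (m + 1) / 2) (by omega) (f + 1) ((m + 1) / 2) r rfl
      (by rw [pow_succ] at hm; omega)
    have h2 := ih (f + m) (by omega) f m (r + 1) rfl (by omega)
    rw [kkH_succ]
    have h3 : (f + 1 + (r + 1)).choose (r + 1) =
        (f + 1 + r).choose r + (f + (r + 1)).choose (r + 1) := by
      have h4 : f + 1 + (r + 1) = (f + 1 + r) + 1 := by omega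
      have h5 : f + (r + 1) = f + 1 + r := by omega
      rw [h4, Nat.choose_succ_succ, h5]
    rw [h3, mul_add]
    have h6 : 2 ^ (r + 1) * (f + 1 + r).choose r = 2 * (2 ^ r * (f + 1 + r).choose r) := by
      rw [pow_succ]
      ring
    rw [h6]
    omega

theorem choose_le_pow' (d r : ℕ) (hd : 1 ≤ d) : (d - 1 + r).choose r ≤ d ^ r := by
  induction r with
  | zero => simp
  | succ r ih =>
    have h1 := Nat.add_one_mul_choose_eq (d - 1 + r) r
    have h2 : d - 1 + r + 1 ≤ d * (r + 1) := by
      have h3 : d - 1 + r + 1 = d + r := by omega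
      have h4 : r ≤ d * r := Nat.le_mul_of_pos_left r (by omega)
      rw [h3, mul_add, mul_one]
      omega
    have h3 : (d - 1 + (r + 1)).choose (r + 1) * (r + 1) ≤ d ^ (r + 1) * (r + 1) := by
      have h4 : d - 1 + (r + 1) = d - 1 + r + 1 := by omega
      rw [h4, ← h1]
      calc (d - 1 + r + 1) * (d - 1 + r).choose r
          ≤ (d * (r + 1)) * d ^ r := Nat.mul_le_mul h2 ih
        _ = d ^ (r + 1) * (r + 1) := by
          rw [pow_succ]
          ring
    exact Nat.le_of_mul_le_mul_right h3 (by omega)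

/-- The quasi-polynomial bound. -/
theorem kkH_le (d : ℕ) (hd : 1 ≤ d) : kkH (d - 1) (2 * d - 2) ≤ 4 * d ^ (Nat.log 2 d + 3) := by
  have h0 : d < 2 ^ (Nat.log 2 d + 1) := Nat.lt_pow_succ_log_self (by norm_num) d
  have h1 : 2 * d - 2 < 2 ^ (Nat.log 2 d + 2) := by
    rw [pow_succ]
    omega
  have h2 := kkH_bound _ (d - 1) (2 * d - 2) (Nat.log 2 d + 2) rfl h1
  have h3 := choose_le_pow' d (Nat.log 2 d + 2) hd
  have h4 : 2 ^ (Nat.log 2 d + 2) ≤ 4 * d := by
    have h5 : 2 ^ Nat.log 2 d ≤ d := Nat.pow_log_le_self 2 (by omega)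
    rw [pow_add]
    omega
  calc kkH (d - 1) (2 * d - 2) ≤ 2 ^ (Nat.log 2 d + 2) *
        (d - 1 + (Nat.log 2 d + 2)).choose (Nat.log 2 d + 2) := by omega
    _ ≤ (4 * d) * d ^ (Nat.log 2 d + 2) := Nat.mul_le_mul h4 h3
    _ = 4 * d ^ (Nat.log 2 d + 3) := by
      rw [pow_succ d (Nat.log 2 d + 2)]
      ring

variable {ι : Type*}

/-- An improving step inside the members of `V` which contain `S`. -/
structure KStep (V : Set (Finset ι)) (G : Finset ι → ℝ) (Adj : Finset ι → Finset ι → Prop)
    (S I J : Finset ι) : Prop where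
  memI : I ∈ V
  memJ : J ∈ V
  subI : S ⊆ I
  subJ : S ⊆ J
  adj : Adj I J
  lt : G J < G I

/-- At most `n` improving steps. -/
inductive KReach (V : Set (Finset ι)) (G : Finset ι → ℝ) (Adj : Finset ι → Finset ι → Prop)
    (S : Finset ι) : ℕ → Finset ι → Finset ι → Prop
  | refl (n : ℕ) (I : Finset ι) : KReach V G Adj S n I I
  | step {n : ℕ} {I J K : Finset ι} : KStep V G Adj S I J → KReach V G Adj S n J K →
      KReach V G Adj S (n + 1) I K

variable {V : Set (Finset ι)} {G : Finset ι → ℝ} {Adj : Finset ι → Finset ι → Prop}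
  {S S' I J K : Finset ι}

theorem KReach.mono {n m : ℕ} (h : KReach V G Adj S n I J) (hnm : n ≤ m) :
    KReach V G Adj S m I J := by
  induction h generalizing m with
  | refl n I => exact KReach.refl m I
  | step h1 _ ih =>
    obtain ⟨m, rfl⟩ : ∃ k, m = k + 1 := ⟨m - 1, by omega⟩
    exact KReach.step h1 (ih (by omega))

theorem KReach.trans {a b : ℕ} (h : KReach V G Adj S a I J) (h' : KReach V G Adj S b J K) :
    KReach V G Adj S (a + b) I K := by
  induction h with
  | refl n I => exact h'.mono (by omega)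
  | step h1 _ ih =>
    have h2 := KReach.step h1 (ih h')
    exact h2.mono (by omega)

theorem KReach.sub (hS : S ⊆ S') {n : ℕ} (h : KReach V G Adj S' n I J) :
    KReach V G Adj S n I J := by
  induction h with
  | refl n I => exact KReach.refl n I
  | step h1 _ ih =>
    exact KReach.step ⟨h1.memI, h1.memJ, hS.trans h1.subI, hS.trans h1.subJ, h1.adj, h1.lt⟩ ih

theorem KReach.mem {n : ℕ} (h : KReach V G Adj S n I J) (hI : I ∈ V) (hS : S ⊆ I) :
    J ∈ V ∧ S ⊆ J := by
  induction h with
  | refl n I => exact ⟨hI, hS⟩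
  | step h1 _ ih => exact ih h1.memJ h1.subJ

theorem KReach.le {n : ℕ} (h : KReach V G Adj S n I J) : G J ≤ G I := by
  induction h with
  | refl n I => exact le_rfl
  | step h1 _ ih => exact ih.trans h1.lt.le

/-- The monotone version of the Kalai-Kleitman argument: if all members which can be reached from
`I` by `kkH f m` improving steps inside the members containing `S`, `|S| = d - f`, only use `m`
elements outside of `S`, then the best member containing `S` can be reached. -/
theorem kk [DecidableEq ι] {d : ℕ} (hcard : ∀ I ∈ V, I.card = d)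
    (himp : ∀ S I : Finset ι, I ∈ V → S ⊆ I → (∃ J ∈ V, S ⊆ J ∧ G J < G I) →
      ∃ J, KStep V G Adj S I J) :
    ∀ (n f m : ℕ) (S I U : Finset ι), f + m = n → S.card + f = d → I ∈ V → S ⊆ I → U.card ≤ m →
      (∀ J, KReach V G Adj S (kkH f m) I J → J \ S ⊆ U) →
      ∃ T, KReach V G Adj S (kkH f m) I T ∧ ∀ J ∈ V, S ⊆ J → G T ≤ G J := by
  classical
  intro n
  induction n using Nat.strong_induction_on with
  | _ n ih =>
    intro f m S I U hn hS hI hSI hU hR
    have hself : I = S → ∃ T, KReach V G Adj S (kkH f m) I T ∧ ∀ J ∈ V, S ⊆ J → G T ≤ G J := by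
      intro h
      refine ⟨I, KReach.refl _ I, fun J hJ hSJ => ?_⟩
      have h1 : J = I := by
        refine (Finset.eq_of_subset_of_card_le (h ▸ hSJ) ?_).symm
        rw [hcard J hJ, hcard I hI]
      rw [h1]
    rcases f with _ | f
    · refine hself (Finset.eq_of_subset_of_card_le hSI ?_).symm
      rw [hcard I hI]
      omega
    rcases m with _ | m
    · refine hself (Finset.Subset.antisymm ?_ hSI)
      have h1 := hR I (KReach.refl _ I)
      have h2 : U = ∅ := Finset.card_eq_zero.1 (by omega)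
      rw [h2, Finset.subset_empty, Finset.sdiff_eq_empty_iff_subset] at h1
      exact h1
    obtain ⟨h, hh⟩ : ∃ h, h = kkH (f + 1) ((m + 1) / 2) := ⟨_, rfl⟩
    obtain ⟨g, hg⟩ : ∃ g, g = kkH f m := ⟨_, rfl⟩
    rw [kkH_succ, ← hh, ← hg] at hR ⊢
    obtain ⟨U₁, hU₁⟩ : ∃ U₁ : Finset ι,
        U₁ = U.filter fun i => ∃ J, KReach V G Adj S h I J ∧ i ∈ J \ S := ⟨_, rfl⟩
    have hU₁m : ∀ i, i ∈ U₁ ↔ i ∈ U ∧ ∃ J, KReach V G Adj S h I J ∧ i ∈ J \ S := by
      intro i
      rw [hU₁, Finset.mem_filter]
    by_cases hc : U₁.card ≤ (m + 1) / 2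
    · obtain ⟨T, hT, hT'⟩ := ih (f + 1 + (m + 1) / 2) (by omega) (f + 1) ((m + 1) / 2) S I U₁ rfl
        hS hI hSI hc (fun J hJ i hi => by
          rw [← hh] at hJ
          exact (hU₁m i).2 ⟨hR J (hJ.mono (by omega)) hi, J, hJ, hi⟩)
      rw [← hh] at hT
      exact ⟨T, hT.mono (by omega), hT'⟩
    · have hex : ∀ i ∈ U₁, ∃ T, KReach V G Adj S (h + g) I T ∧
          ∀ J ∈ V, insert i S ⊆ J → G T ≤ G J := by
        intro i hi
        obtain ⟨hiU, J, hJ, hiJ⟩ := (hU₁m i).1 hi
        rw [Finset.mem_sdiff] at hiJ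
        obtain ⟨hJV, hSJ⟩ := hJ.mem hI hSI
        have hSi : S ⊆ insert i S := Finset.subset_insert i S
        obtain ⟨T, hT, hT'⟩ := ih (f + m) (by omega) f m (insert i S) J (U.erase i) rfl
          (by rw [Finset.card_insert_of_notMem hiJ.2]; omega) hJV
          (Finset.insert_subset hiJ.1 hSJ)
          (by rw [Finset.card_erase_of_mem hiU]; omega)
          (fun K hK j hj => by
            rw [← hg] at hK
            have h1 : KReach V G Adj S (h + g) I K := hJ.trans (hK.sub hSi)
            rw [Finset.mem_sdiff, Finset.mem_insert, not_or] at hj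
            rw [Finset.mem_erase]
            refine ⟨hj.2.1, hR K (h1.mono (by omega)) ?_⟩
            rw [Finset.mem_sdiff]
            exact ⟨hj.1, hj.2.2⟩)
        rw [← hg] at hT
        exact ⟨T, hJ.trans (hT.sub hSi), hT'⟩
      choose! T hT hT' using hex
      have hne : U₁.Nonempty := by
        rw [← Finset.card_pos]
        omega
      obtain ⟨i, hi, hmin⟩ := Finset.exists_min_image U₁ (fun i => G (T i)) hne
      by_cases hopt : ∃ J ∈ V, S ⊆ J ∧ G J < G (T i)
      · obtain ⟨hTV, hST⟩ := (hT i hi).mem hI hSI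
        obtain ⟨J, hJ⟩ := himp S (T i) hTV hST hopt
        have hIJ : KReach V G Adj S (h + g + 1) I J :=
          ((hT i hi).trans (KReach.step hJ (KReach.refl 0 J))).mono (by omega)
        obtain ⟨T', hT1, hT2⟩ := ih (f + 1 + (m + 1) / 2) (by omega) (f + 1) ((m + 1) / 2) S J
          (U \ U₁) rfl hS hJ.memJ hJ.subJ (by
            have h1 : U₁ ⊆ U := by
              rw [hU₁]
              exact Finset.filter_subset _ _
            rw [Finset.card_sdiff_of_subset h1]
            omega)
          (fun K hK j hj => by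
            rw [← hh] at hK
            rw [Finset.mem_sdiff]
            refine ⟨hR K ((hIJ.trans hK).mono (by omega)) hj, fun hj1 => ?_⟩
            rw [Finset.mem_sdiff] at hj
            obtain ⟨hKV, hSK⟩ := hK.mem hJ.memJ hJ.subJ
            have h1 := hT' j hj1 K hKV (Finset.insert_subset hj.1 hSK)
            have h2 := hmin j hj1
            have h3 := hK.le
            have h4 := hJ.lt
            linarith)
        rw [← hh] at hT1
        exact ⟨T', (hIJ.trans hT1).mono (by omega), hT2⟩
      · push Not at hopt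
        exact ⟨T i, (hT i hi).mono (by omega), hopt⟩

end Pool.MP_0cad2f_co.Qp
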